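import Pool.Agent.R786.KleinPSL

/-!
If a cocompact Kleinian group acts properly discontinuously by isometries on the
pseudo-Riemannian space form `H^{N,N-1}_+ = O(N,N)/O(N,N-1)`, then `4 ∣ N`.
-/

set_option autoImplicit false

namespace Pool.Agent.Results.MP_7d6803_gt.KleinianFourDvd

open Matrix Topology
open scoped ComplexOrder
open Pool.Agent.R786

/-- The group `SL(2,ℂ)`. -/
abbrev SL2C : Type := Matrix.SpecialLinearGroup (Fin 2) ℂ

/-- The group `PSL(2,ℂ)`, the quotient of `SL(2,ℂ)` by its centre `{±1}`. -/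
def PSL2C : Type := Matrix.ProjectiveSpecialLinearGroup (Fin 2) ℂ

/-- The quotient group structure of `PSL(2,ℂ)`. -/
instance groupPSL2C : Group PSL2C :=
  QuotientGroup.Quotient.group (Subgroup.center (Matrix.SpecialLinearGroup (Fin 2) ℂ))

/-- The quotient topology of `PSL(2,ℂ)`. -/
noncomputable instance topologyPSL2C : TopologicalSpace PSL2C :=
  QuotientGroup.instTopologicalSpace
    (Subgroup.center (Matrix.SpecialLinearGroup (Fin 2) ℂ))

/-- The class in `PSL(2,ℂ)` of an element of `SL(2,ℂ)`. -/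
def cls (g : SL2C) : PSL2C :=
  (QuotientGroup.mk g : Matrix.ProjectiveSpecialLinearGroup (Fin 2) ℂ)

/-- Hyperbolic three-space `H³` in the Hermitian model: the positive definite Hermitian complex
`2 × 2` matrices of determinant one. -/
def HypThree : Set (Matrix (Fin 2) (Fin 2) ℂ) := {P | P.PosDef ∧ P.det = 1}

/-- The action of (the class in `PSL(2,ℂ)` of) `g` on `H³`: `P ↦ g * P * gᴴ`. -/
def act (g : SL2C) (P : Matrix (Fin 2) (Fin 2) ℂ) : Matrix (Fin 2) (Fin 2) ℂ :=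
  (g : Matrix (Fin 2) (Fin 2) ℂ) * P * (g : Matrix (Fin 2) (Fin 2) ℂ)ᴴ

/-- A cocompact Kleinian group: a discrete subgroup `Γ` of `PSL(2,ℂ)` for which `Γ \ H³` is
compact, that is, the translates under `Γ` of some compact subset `K` of `H³` cover `H³`. -/
structure IsCocompactKleinian (Γ : Subgroup PSL2C) : Prop where
  discrete : DiscreteTopology Γ
  cocompact : ∃ K ⊆ HypThree, IsCompact K ∧ ∀ P ∈ HypThree, ∃ g : SL2C, cls g ∈ Γ ∧ act g P ∈ K

/-- The quadratic form `x₁² + ⋯ + x_N² - y₁² - ⋯ - y_N²` of signature `(N,N)` on `ℝ^{2N}`. -/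
def quadForm (N : ℕ) (x : Fin N ⊕ Fin N → ℝ) : ℝ :=
  ∑ i, x (Sum.inl i) ^ 2 - ∑ i, x (Sum.inr i) ^ 2

/-- The pseudo-Riemannian space form `H^{N,N-1}_+`: the quadric `quadForm N x = -1`. -/
def pseudoHyp (N : ℕ) : Set (Fin N ⊕ Fin N → ℝ) := {x | quadForm N x = -1}

/-- The multiplicative map `φ` from the group `Γ` to the real `2N × 2N` matrices takes its values
in `O(N,N)`, the isometry group of `H^{N,N-1}_+`: all `φ γ` preserve `quadForm N`. -/
def IsIsometric {Γ : Type*} [Group Γ] {N : ℕ}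
    (φ : Γ →* Matrix (Fin N ⊕ Fin N) (Fin N ⊕ Fin N) ℝ) : Prop :=
  ∀ γ x, quadForm N (φ γ *ᵥ x) = quadForm N x

/-- The action on `H^{N,N-1}_+` given by `φ` is properly discontinuous: for every compact
`K ⊆ H^{N,N-1}_+` only finitely many `γ` satisfy `φ(γ)K ∩ K ≠ ∅`. -/
def IsProperlyDiscontinuous {Γ : Type*} [Group Γ] {N : ℕ}
    (φ : Γ →* Matrix (Fin N ⊕ Fin N) (Fin N ⊕ Fin N) ℝ) : Prop :=
  ∀ K ⊆ pseudoHyp N, IsCompact K → {γ : Γ | ((fun x => φ γ *ᵥ x) '' K ∩ K).Nonempty}.Finite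

/-- The linear automorphisms given by a multiplicative map to matrices. -/
noncomputable def linHom {Γ : Type*} [Group Γ] {N : ℕ}
    (φ : Γ →* Matrix (Fin N ⊕ Fin N) (Fin N ⊕ Fin N) ℝ) : Γ →* (Kl.V N ≃ₗ[ℝ] Kl.V N) :=
  (LinearMap.GeneralLinearGroup.generalLinearEquiv ℝ (Kl.V N)).toMonoidHom.comp
    ((Matrix.GeneralLinearGroup.toLin (n := Fin N ⊕ Fin N) (R := ℝ)).toMonoidHom.comp
      (MonoidHom.toHomUnits φ))

theorem linHom_apply {Γ : Type*} [Group Γ] {N : ℕ}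
    (φ : Γ →* Matrix (Fin N ⊕ Fin N) (Fin N ⊕ Fin N) ℝ) (γ : Γ) (x : Kl.V N) :
    linHom φ γ x = φ γ *ᵥ x := rfl

/-- **Theorem.** For every `N`: if some cocompact Kleinian group admits a properly discontinuous
isometric action on `H^{N,N-1}_+`, then `4 ∣ N`. -/
theorem result (N : ℕ)
    (h : ∃ Γ : Subgroup PSL2C, IsCocompactKleinian Γ ∧
      ∃ φ : Γ →* Matrix (Fin N ⊕ Fin N) (Fin N ⊕ Fin N) ℝ,
        IsIsometric φ ∧ IsProperlyDiscontinuous φ) : 4 ∣ N := by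
  obtain ⟨Γ, ⟨hdisc, K, hKH, hKc, hcov⟩, φ, hiso, hφ⟩ := h
  let φ' : Γ →* (Kl.V N ≃ₗ[ℝ] Kl.V N) := linHom φ
  have h1 : ∀ γ x, Kl.qf (φ' γ x) = Kl.qf x := fun γ x => hiso γ x
  have h2 : ∀ C : Set (Kl.V N), IsCompact C → (∀ x ∈ C, Kl.qf x = -1) →
      {γ : Γ | ((fun x => φ' γ x) '' C ∩ C).Nonempty}.Finite := fun C hC hq => hφ C hq hC
  exact KlP.psl_core N Γ hdisc K hKc (fun P h1 h2 => hcov P ⟨h1, h2⟩) φ' h1 h2

end Pool.Agent.Results.MP_7d6803_gt.KleinianFourDvd
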